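import Pool.Agent.helper62.DP8.Spec

/-!
# Project sq8: module CLP
-/

set_option autoImplicit false

namespace Pool.Agent.helper62.DP8

/-- Periodicity modulo `g`. -/
theorem CLP_mod {V : Type} {G : SimpleGraph V} {g : ℕ} {u : ℕ → V} (hu : Cy G g u) (a : ℕ) : u a = u (a % g) := by
  have h1 : ∀ k r : ℕ, u (r + g * k) = u r := by
    intro k
    induction k with
    | zero => intro r; simp
    | succ m ih =>
      intro r
      have h2 : r + g * (m + 1) = (r + g * m) + g := by ring
      rw [h2, hu.per, ih]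
  have h3 := h1 (a / g) (a % g)
  rw [Nat.mod_add_div] at h3
  exact h3

/-- The vertices of an arc are different. -/
theorem CLP_inj {V : Type} {G : SimpleGraph V} {g : ℕ} {u : ℕ → V} (hg : 3 ≤ g) (hu : Cy G g u) (a b : ℕ) (hab : a < b) (hb : b < a + g) :
    u a ≠ u b := by
  intro h
  rw [CLP_mod hu a, CLP_mod hu b] at h
  have h1 := hu.inj (a % g) (Nat.mod_lt _ (by omega)) (b % g) (Nat.mod_lt _ (by omega)) h
  have h2 : g ∣ b - a := (Nat.modEq_iff_dvd' hab.le).mp h1
  have h3 := Nat.le_of_dvd (by omega) h2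
  omega

/-- A vertex outside of the cycle adjacent to two vertices of the cycle. -/
theorem CLP_two {V : Type} {G : SimpleGraph V} {g : ℕ} {u : ℕ → V} (hARC : ARC_stmt) (hg : 9 ≤ g) (hG : Gir G g) (hu : Cy G g u) (i k : ℕ)
    (hk : 1 ≤ k) (hkg : k < g) (z : V) (hz : ∀ j, z ≠ u j) (h1 : G.Adj (u i) z) (h2 : G.Adj z (u (i + k))) : False := by
  have hne : u i ≠ u (i + k) := CLP_inj (by omega) hu i (i + k) (by omega) (by omega)
  have hp : (SimpleGraph.Walk.cons h1 (SimpleGraph.Walk.cons h2 SimpleGraph.Walk.nil)).IsPath := by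
    simp only [SimpleGraph.Walk.cons_isPath_iff, SimpleGraph.Walk.IsPath.nil, SimpleGraph.Walk.support_cons,
      SimpleGraph.Walk.support_nil, List.mem_cons, List.not_mem_nil, or_false, not_or, true_and]
    exact ⟨hz (i + k), (hz i).symm, hne⟩
  have h3 := hARC V G g u (by omega) hG hu i k hk hkg _ hp ⟨z, by simp, hz⟩
  simp only [SimpleGraph.Walk.length_cons, SimpleGraph.Walk.length_nil] at h3
  omega

theorem CLP (hARC : ARC_stmt) : CLP_stmt := by
  intro V G g u p hg hG hu hup hne i k hk hkg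
  have huu : u i ≠ u (i + k) := CLP_inj (by omega) hu i (i + k) (by omega) (by omega)
  have hpu : ∀ j l, p j ≠ u l := fun j l => (hne l j).symm
  have h1 := hup i
  have h2 := (hup (i + k)).symm
  have hpp : p i ≠ p (i + k) := by
    intro h
    rw [← h] at h2
    exact CLP_two hARC hg hG hu i k hk hkg (p i) (hpu i) h1 h2
  refine ⟨hpp, ?_⟩
  rintro ⟨-, h | ⟨z, h3, h4⟩⟩
  · have hp : (SimpleGraph.Walk.cons h1 (SimpleGraph.Walk.cons h (SimpleGraph.Walk.cons h2 SimpleGraph.Walk.nil))).IsPath := by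
      simp only [SimpleGraph.Walk.cons_isPath_iff, SimpleGraph.Walk.IsPath.nil, SimpleGraph.Walk.support_cons,
        SimpleGraph.Walk.support_nil, List.mem_cons, List.not_mem_nil, or_false, not_or, true_and]
      exact ⟨⟨hpu _ _, hpp, hpu _ _⟩, hne _ _, hne _ _, huu⟩
    have h3 := hARC V G g u (by omega) hG hu i k hk hkg _ hp ⟨p i, by simp, hpu i⟩
    simp only [SimpleGraph.Walk.length_cons, SimpleGraph.Walk.length_nil] at h3
    omega
  · by_cases hz1 : z = u i
    · rw [hz1] at h4
      exact CLP_two hARC hg hG hu i k hk hkg (p (i + k)) (hpu _) h4 h2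
    · by_cases hz2 : z = u (i + k)
      · rw [hz2] at h3
        exact CLP_two hARC hg hG hu i k hk hkg (p i) (hpu _) h1 h3
      · have hp : (SimpleGraph.Walk.cons h1 (SimpleGraph.Walk.cons h3 (SimpleGraph.Walk.cons h4
            (SimpleGraph.Walk.cons h2 SimpleGraph.Walk.nil)))).IsPath := by
          simp only [SimpleGraph.Walk.cons_isPath_iff, SimpleGraph.Walk.IsPath.nil, SimpleGraph.Walk.support_cons,
            SimpleGraph.Walk.support_nil, List.mem_cons, List.not_mem_nil, or_false, not_or, true_and]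
          exact ⟨⟨⟨hpu _ _, h4.ne, hz2⟩, h3.ne, hpp, hpu _ _⟩, hne _ _, fun h => hz1 h.symm, hne _ _, huu⟩
        have h5 := hARC V G g u (by omega) hG hu i k hk hkg _ hp ⟨p i, by simp, hpu i⟩
        simp only [SimpleGraph.Walk.length_cons, SimpleGraph.Walk.length_nil] at h5
        omega

end Pool.Agent.helper62.DP8
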