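import Pool.Agent.helper62.DP8.Spec

set_option autoImplicit false

namespace Pool.Agent.helper62.DP8

open Classical in
theorem DGB_card {V : Type} [Fintype V] (G : SimpleGraph V) (z : V) :
    (G.neighborSet z).ncard = (Finset.univ.filter (fun u => G.Adj z u)).card := by
  rw [← Set.ncard_coe_finset]
  congr 1
  ext u
  simp

theorem DGB : DGB_stmt := by
  classical
  intro V _ _ G x N hN
  unfold dg
  have hsub : (Finset.univ.filter (fun u => (sq G).Adj x u)) ⊆
      N.biUnion (fun z => insert z ((Finset.univ.filter (fun u => G.Adj z u)).erase x)) := by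
    intro u hu
    rw [Finset.mem_filter] at hu
    obtain ⟨-, hne, h⟩ := hu
    rw [Finset.mem_biUnion]
    rcases h with h | ⟨c, h1, h2⟩
    · exact ⟨u, (hN u).2 h, Finset.mem_insert_self _ _⟩
    · refine ⟨c, (hN c).2 h1, Finset.mem_insert_of_mem ?_⟩
      rw [Finset.mem_erase, Finset.mem_filter]
      exact ⟨Ne.symm hne, Finset.mem_univ _, h2⟩
  refine le_trans (le_of_eq ?_) ((Finset.card_le_card hsub).trans
    (Finset.card_biUnion_le.trans (Finset.sum_le_sum fun z hz => ?_)))
  · congr 1
  · have hx : x ∈ Finset.univ.filter (fun u => G.Adj z u) := by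
      rw [Finset.mem_filter]
      exact ⟨Finset.mem_univ _, ((hN z).1 hz).symm⟩
    rw [DGB_card]
    refine (Finset.card_insert_le _ _).trans ?_
    rw [Finset.card_erase_add_one hx]

end Pool.Agent.helper62.DP8
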